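import Pool.Agent.K3h88.VR.Stm

/-! Project VR, brick ALT: the alteration argument. -/

set_option autoImplicit false

namespace Pool.Agent.K3h78.VR

open Finset Pool.Agent.K3h88.VR

theorem t_ALT : S_ALT := by
  classical
  intro n d k A h0 hA
  let P : Finset (Finset (E n)) → Prop := fun S =>
    PD S ∧ ∀ T ∈ S, T ⊆ A ∧ ∃ x y : E n, x ≠ 0 ∧ y ≠ 0 ∧ x ≠ y ∧ T = {x, y, x + y}
  have hne : ((univ : Finset (Finset (Finset (E n)))).filter P).Nonempty := by
    refine ⟨∅, ?_⟩
    rw [mem_filter]
    refine ⟨mem_univ _, ?_, ?_⟩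
    · intro T hT
      exact absurd hT (notMem_empty _)
    · intro T hT
      exact absurd hT (notMem_empty _)
  obtain ⟨F, hF, hmax⟩ := exists_max_image _ (fun S => S.card) hne
  rw [mem_filter] at hF
  obtain ⟨-, hPD, hFT⟩ := hF
  have hmem : ∀ x, x ∈ F.biUnion id ↔ ∃ T ∈ F, x ∈ T := by
    intro x
    simp
  refine ⟨A \ F.biUnion id, ?_, ?_⟩
  · intro x hx y hy hxy
    rw [mem_sdiff, hmem] at hx hy hxy
    obtain ⟨hxA, hxF⟩ := hx
    obtain ⟨hyA, hyF⟩ := hy
    obtain ⟨hzA, hzF⟩ := hxy
    have hx0 : x ≠ 0 := fun h => h0 (h ▸ hxA)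
    have hy0 : y ≠ 0 := fun h => h0 (h ▸ hyA)
    have hxy : x ≠ y := by
      rintro rfl
      apply h0
      have : x + x = 0 := by
        ext i
        simp only [Pi.add_apply, Pi.zero_apply]
        exact CharTwo.add_self_eq_zero _
      rwa [this] at hzA
    have hdis : ∀ T ∈ F, Disjoint ({x, y, x + y} : Finset (E n)) T := by
      intro T hT
      rw [Finset.disjoint_left]
      intro a ha haT
      rw [mem_insert, mem_insert, mem_singleton] at ha
      rcases ha with rfl | rfl | rfl
      · exact hxF ⟨T, hT, haT⟩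
      · exact hyF ⟨T, hT, haT⟩
      · exact hzF ⟨T, hT, haT⟩
    have hnot : ({x, y, x + y} : Finset (E n)) ∉ F := by
      intro h
      exact hxF ⟨_, h, mem_insert_self _ _⟩
    have h1 := hmax (insert {x, y, x + y} F) (by
      rw [mem_filter]
      refine ⟨mem_univ _, ?_, ?_⟩
      · intro T hT T' hT' hne
        rw [mem_insert] at hT hT'
        rcases hT with rfl | hT
        · rcases hT' with rfl | hT'
          · exact absurd rfl hne
          · exact hdis T' hT'
        · rcases hT' with rfl | hT'
          · exact (hdis T hT).symm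
          · exact hPD T hT T' hT' hne
      · intro T hT
        rw [mem_insert] at hT
        rcases hT with rfl | hT
        · refine ⟨?_, x, y, hx0, hy0, hxy, rfl⟩
          intro a ha
          rw [mem_insert, mem_insert, mem_singleton] at ha
          rcases ha with rfl | rfl | rfl
          · exact hxA
          · exact hyA
          · exact hzA
        · exact hFT T hT)
    rw [card_insert_of_notMem hnot] at h1
    omega
  · intro V hV
    obtain ⟨h1, h2⟩ := hA V hV
    let G := F.filter (fun T => ∃ v ∈ T, v ∈ V)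
    have hGtri : G ⊆ tri V := by
      intro T hT
      obtain ⟨hTF, v, hvT, hvV⟩ := mem_filter.1 hT
      obtain ⟨-, x, y, hx0, hy0, hxy, rfl⟩ := hFT T hTF
      have h2x : ∀ z : E n, z + z = 0 := by
        intro z
        ext i
        simp only [Pi.add_apply, Pi.zero_apply]
        exact CharTwo.add_self_eq_zero _
      unfold tri
      rw [mem_filter]
      refine ⟨mem_univ _, ?_⟩
      rw [mem_insert, mem_insert, mem_singleton] at hvT
      rcases hvT with rfl | rfl | rfl
      · exact ⟨v, hvV, y, hx0, hy0, hxy, rfl⟩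
      · refine ⟨v, hvV, x, hy0, hx0, hxy.symm, ?_⟩
        ext a
        simp only [mem_insert, mem_singleton, add_comm v x]
        tauto
      · refine ⟨x + y, hvV, x, ?_, hx0, ?_, ?_⟩
        · intro h
          apply hxy
          have h3 : x + y + y = y := by rw [h, zero_add]
          rwa [add_assoc, h2x, add_zero] at h3
        · intro h
          exact hy0 (by simpa using h)
        · have h3 : x + y + x = y := by
            rw [add_comm x y, add_assoc, h2x, add_zero]
          rw [h3]
          ext a
          simp only [mem_insert, mem_singleton]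
          tauto
    have hGk : G.card ≤ k := by
      by_contra hcon
      push Not at hcon
      obtain ⟨S, hS, hSk⟩ := exists_subset_card_eq (show k + 1 ≤ G.card by omega)
      refine h2 ⟨S, hS.trans hGtri, hSk, ?_, ?_⟩
      · intro T hT T' hT' hne
        exact hPD T (mem_filter.1 (hS hT)).1 T' (mem_filter.1 (hS hT')).1 hne
      · intro T hT
        exact (hFT T (mem_filter.1 (hS hT)).1).1
    have hD : (G.biUnion id).card ≤ 3 * k := by
      refine (card_biUnion_le_card_mul G id 3 ?_).trans ?_
      · intro T hT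
        obtain ⟨-, x, y, hx0, hy0, hxy, rfl⟩ := hFT T (mem_filter.1 hT).1
        exact card_le_three
      · rw [mul_comm]
        exact Nat.mul_le_mul_left 3 hGk
    obtain ⟨x, hxV, hxA, hxD⟩ := h1 _ hD
    refine ⟨x, hxV, ?_⟩
    rw [mem_sdiff, hmem]
    refine ⟨hxA, ?_⟩
    rintro ⟨T, hT, hxT⟩
    apply hxD
    rw [mem_biUnion]
    exact ⟨T, mem_filter.2 ⟨hT, x, hxT, hxV⟩, hxT⟩

end Pool.Agent.K3h78.VR
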